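import Pool.Agent.Helper92.GG.Stmts
import Pool.Agent.Helper92.GG.RK

/-! # GNB: generic walks are non-backtracking -/

set_option autoImplicit false

namespace Pool.Agent.Helper92.GG

open MvPolynomial
open Pool.Agent.Helper49.Girth (cl ty mem_cl mem_cl' coe_cl subset_cl mem_cl_of_mem cl_le_cl
  cl_mono root_mem_cl aeval_mem)

universe u

section

variable {K : Type u} [Field K] [IsAlgClosed K] {n m k : ℕ} {L : Type u} [Field L] [Algebra K L]

theorem GNB_pts_finite (v : ℕ → Fin n → L) {I : Set ℕ} (hI : I.Finite) : (pts v I).Finite :=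
  hI.biUnion fun _ _ => Set.finite_range _

theorem GNB_pts_succ (v : ℕ → Fin n → L) (r : ℕ) :
    pts v (Set.Iic (r + 1)) = pts v (Set.Iic r) ∪ Set.range (v (r + 1)) := by
  ext a
  simp only [pts, Set.mem_iUnion, Set.mem_union, Set.mem_Iic]
  constructor
  · rintro ⟨i, hi, h⟩
    rcases Nat.lt_or_ge i (r + 1) with h1 | h1
    · exact Or.inl ⟨i, by omega, h⟩
    · have : i = r + 1 := by omega
      subst this
      exact Or.inr h
  · rintro (⟨i, hi, h⟩ | h)
    · exact ⟨i, by omega, h⟩
    · exact ⟨r + 1, le_refl _, h⟩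

theorem GNB_range_subset (v : ℕ → Fin n → L) {I : Set ℕ} {i : ℕ} (hi : i ∈ I) :
    Set.range (v i) ⊆ pts v I := fun _ ha => Set.mem_biUnion hi ha

/-- a neighbour adds at most `k` to the rank -/
theorem GNB_rk_step (S : Sys K n m k) {σ : Bool} {x y : Fin n → L} (h : Edge S.P σ x y)
    {A : Set L} (hA : A.Finite) (hx : Set.range x ⊆ A) :
    rk K (A ∪ Set.range y) ≤ rk K A + k := by
  have h1 := rk_submod (K := K) (A := Set.range x) (B := A) (C := Set.range y)
    (Set.finite_range x) hA (Set.finite_range y)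
  rw [Set.union_eq_self_of_subset_left hx, S.rkE L σ x y h, S.rkV L σ x y h] at h1
  have h2 : (m + 1) * k = m * k + k := by ring
  omega

/-- the rank of a walk is at most `m k + r k` -/
theorem GNB_rk_walk (S : Sys K n m k) {σ : Bool} {r : ℕ} {v : ℕ → Fin n → L}
    (hw : IsWalk S.P σ r v) (a : ℕ) : ∀ b, a + b ≤ r →
    rk K (pts v (Set.Iic (a + b))) ≤ rk K (pts v (Set.Iic a)) + b * k := by
  intro b
  induction b with
  | zero => intro _; simp
  | succ b ih =>
    intro h
    have h1 := ih (by omega)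
    have h2 := GNB_rk_step S (hw (a + b) (by omega)) (GNB_pts_finite v (Set.finite_Iic (a + b)))
      (GNB_range_subset v (I := Set.Iic (a + b)) (i := a + b) (Set.mem_Iic.2 le_rfl))
    rw [← GNB_pts_succ] at h2
    have h3 : (b + 1) * k = b * k + k := by ring
    have h4 : a + (b + 1) = a + b + 1 := by ring
    rw [h4]
    omega

theorem GNB_rk_zero (S : Sys K n m k) {σ : Bool} {r : ℕ} {v : ℕ → Fin n → L}
    (hw : IsWalk S.P σ r v) (hr : 1 ≤ r) : rk K (pts v (Set.Iic 0)) = m * k := by
  have : pts v (Set.Iic 0) = Set.range (v 0) := by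
    ext a
    simp [pts]
  rw [this]
  exact S.rkV L _ _ _ (hw 0 (by omega))

end

/-- GNB. -/
theorem st_GNB : ST_GNB.{u} := by
  intro K _ _ n m k S L _ _ σ r v hw hr i hi he
  have h0 := GNB_rk_zero S hw (by omega)
  have h1 := GNB_rk_walk S hw 0 (i + 1) (by omega)
  have h2 := GNB_rk_walk S hw (i + 2) (r - (i + 2)) (by omega)
  have e1 : i + 2 + (r - (i + 2)) = r := by omega
  rw [e1] at h2
  have h3 : pts v (Set.Iic (i + 2)) = pts v (Set.Iic (i + 1)) := by
    rw [GNB_pts_succ v (i + 1), ← he, Set.union_eq_self_of_subset_right]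
    exact GNB_range_subset v (Set.mem_Iic.2 (by omega))
  rw [h3] at h2
  rw [Nat.zero_add] at h1
  rw [h0] at h1
  have h4 : 1 ≤ k := S.one_le
  have h5 : r * k = (i + 1) * k + (r - (i + 2)) * k + k := by
    obtain ⟨s, rfl⟩ : ∃ s, r = i + 2 + s := ⟨r - (i + 2), by omega⟩
    have : i + 2 + s - (i + 2) = s := by omega
    rw [this]
    ring
  omega

end Pool.Agent.Helper92.GG
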