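import Pool.Agent.Helper92.GG.Stmts
import Pool.Agent.Helper49.Girth.Graph

/-! # GRAPH: uniqueness of non-backtracking walks from the girth -/

set_option autoImplicit false

namespace Pool.Agent.Helper92.GG

universe u

section

variable {V : Type u} {G : SimpleGraph V}

/-- a closed non-backtracking walk contains a cycle -/
theorem GRAPH_closed (y : ℕ → V) (l : ℕ) (hl : 1 ≤ l) (hadj : ∀ i < l, G.Adj (y i) (y (i + 1)))
    (hnb : ∀ i, i + 2 ≤ l → y i ≠ y (i + 2)) (h : y 0 = y l) : G.egirth ≤ ((l : ℕ) : ℕ∞) := by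
  have h1 := Pool.Agent.Helper49.Girth.NB_of_fun y l hadj (by
    intro i hi hil
    obtain ⟨j, rfl⟩ : ∃ j, i = j + 1 := ⟨i - 1, by omega⟩
    rw [Nat.add_sub_cancel]
    exact (hnb j (by omega)).symm) 0 (l - 1) (by omega)
  have e : 0 + (l - 1) + 1 = l := by omega
  rw [e, ← h] at h1
  obtain ⟨v, w, hw, hwl⟩ := Pool.Agent.Helper61.Sym.exists_cycle h1
  refine (SimpleGraph.egirth_le_length hw).trans ?_
  exact_mod_cast (by omega : w.length ≤ l)

theorem GRAPH_main (M : ℕ) (hM : (M : ℕ∞) < G.egirth) : ∀ (r r' : ℕ) (y y' : ℕ → V),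
    r + r' ≤ M →
    (∀ i < r, G.Adj (y i) (y (i + 1))) → (∀ i < r', G.Adj (y' i) (y' (i + 1))) →
    (∀ i, i + 2 ≤ r → y i ≠ y (i + 2)) → (∀ i, i + 2 ≤ r' → y' i ≠ y' (i + 2)) →
    y 0 = y' 0 → y r = y' r' → r = r' ∧ ∀ i ≤ r, y i = y' i := by
  have key : ∀ l : ℕ, 1 ≤ l → l ≤ M → ∀ y : ℕ → V, (∀ i < l, G.Adj (y i) (y (i + 1))) →
      (∀ i, i + 2 ≤ l → y i ≠ y (i + 2)) → y 0 ≠ y l := by
    intro l h1 h2 y h3 h4 h5
    have h6 := GRAPH_closed y l h1 h3 h4 h5
    have h7 : ((l : ℕ) : ℕ∞) ≤ (M : ℕ∞) := by exact_mod_cast h2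
    exact absurd (lt_of_lt_of_le hM (h6.trans h7)) (lt_irrefl _)
  intro r
  induction r with
  | zero =>
    intro r' y y' hr _ h2 _ h4 h0 he
    have hr' : r' = 0 := by
      by_contra hc
      exact key r' (by omega) (by omega) y' h2 h4 (h0.symm.trans he)
    subst hr'
    refine ⟨rfl, fun i hi => ?_⟩
    have : i = 0 := by omega
    subst this
    exact h0
  | succ r ih =>
    intro r' y y' hr h1 h2 h3 h4 h0 he
    rcases Nat.eq_zero_or_pos r' with rfl | hpos
    · exact absurd (h0.trans he.symm) (key (r + 1) (by omega) (by omega) y h1 h3)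
    obtain ⟨s, rfl⟩ : ∃ s, r' = s + 1 := ⟨r' - 1, by omega⟩
    by_cases hc : y r = y' s
    · obtain ⟨h5, h6⟩ := ih s y y' (by omega) (fun i hi => h1 i (by omega))
        (fun i hi => h2 i (by omega)) (fun i hi => h3 i (by omega))
        (fun i hi => h4 i (by omega)) h0 hc
      subst h5
      refine ⟨rfl, fun i hi => ?_⟩
      rcases Nat.lt_or_ge i (r + 1) with h | h
      · exact h6 i (by omega)
      · have : i = r + 1 := by omega
        subst this
        exact he
    · exfalso
      set z : ℕ → V := fun i => if i ≤ r + 1 then y i else y' (r + 1 + (s + 1) - i) with hz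
      have hz1 : ∀ i, i ≤ r + 1 → z i = y i := fun i hi => if_pos hi
      have hz2 : ∀ i, r + 1 ≤ i → z i = y' (r + 1 + (s + 1) - i) := by
        intro i hi
        rcases Nat.lt_or_ge (r + 1) i with h | h
        · exact if_neg (by omega)
        · have : i = r + 1 := by omega
          subst this
          rw [hz1 _ le_rfl, he]
          congr 1
          omega
      refine key (r + 1 + (s + 1)) (by omega) hr z ?_ ?_ ?_
      · intro i hi
        rcases Nat.lt_or_ge i (r + 1) with h | h
        · rw [hz1 i (by omega), hz1 (i + 1) (by omega)]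
          exact h1 i h
        · rw [hz2 i h, hz2 (i + 1) (by omega)]
          obtain ⟨j, hj⟩ : ∃ j, r + 1 + (s + 1) - i = j + 1 := ⟨r + 1 + (s + 1) - i - 1, by omega⟩
          rw [hj]
          have : r + 1 + (s + 1) - (i + 1) = j := by omega
          rw [this]
          exact (h2 j (by omega)).symm
      · intro i hi
        rcases Nat.lt_or_ge (i + 1) (r + 1) with h | h
        · rw [hz1 i (by omega), hz1 (i + 2) (by omega)]
          exact h3 i (by omega)
        · rcases Nat.lt_or_ge i (r + 1) with h' | h'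
          · have hir : i = r := by omega
            subst hir
            rw [hz1 i (by omega), hz2 (i + 2) (by omega)]
            have : i + 1 + (s + 1) - (i + 2) = s := by omega
            rw [this]
            exact hc
          · rw [hz2 i h', hz2 (i + 2) (by omega)]
            obtain ⟨j, hj⟩ : ∃ j, r + 1 + (s + 1) - i = j + 2 :=
              ⟨r + 1 + (s + 1) - i - 2, by omega⟩
            rw [hj]
            have : r + 1 + (s + 1) - (i + 2) = j := by omega
            rw [this]
            exact (h4 j (by omega)).symm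
      · rw [hz1 0 (by omega), hz2 _ (by omega), h0, Nat.sub_self]

end

/-- GRAPH. -/
theorem st_GRAPH : ST_GRAPH.{u} := by
  intro V G M hM r r' y y' hr h1 h2 h3 h4 h0 he
  exact GRAPH_main M hM r r' y y' hr h1 h2 h3 h4 h0 he

end Pool.Agent.Helper92.GG
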