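import Pool.Agent.Helper92.GG.Stmts
import Pool.Agent.Helper92.GG.Walk

/-! # MWALK: `m`-walks between generic pairs -/

set_option autoImplicit false
set_option linter.unusedSectionVars false

namespace Pool.Agent.Helper92.GG

open MvPolynomial
open Pool.Agent.Helper49.Girth (cl ty mem_cl mem_cl' coe_cl subset_cl mem_cl_of_mem cl_le_cl
  cl_mono root_mem_cl aeval_mem)

universe u

section

variable {K : Type u} [Field K] [IsAlgClosed K] {L L' : Type u} [Field L] [Algebra K L]
  [Field L'] [Algebra K L']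

/-- `cl K ∅ = K` if `K` is algebraically closed -/
theorem MWALK_cl_empty {a : L} (ha : a ∈ cl K (∅ : Set L)) : ∃ c : K, algebraMap K L c = a := by
  have h1 : IsAlgebraic (Algebra.adjoin K (∅ : Set L)) a := mem_cl'.1 ha
  have h2 : Algebra.IsAlgebraic K (Algebra.adjoin K (∅ : Set L)) := by
    refine ⟨fun x => ?_⟩
    have h3 : (x : L) ∈ (⊥ : Subalgebra K L) := by
      rw [← Algebra.adjoin_empty]
      exact x.2
    obtain ⟨c, hc⟩ := Algebra.mem_bot.1 h3
    have h4 : algebraMap K (Algebra.adjoin K (∅ : Set L)) c = x := Subtype.ext hc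
    rw [← h4]
    exact isAlgebraic_algebraMap c
  have h5 : IsAlgebraic K a := h1.restrictScalars K
  obtain ⟨c, hc⟩ := minpoly.mem_range_of_degree_eq_one K a
    (IsAlgClosed.degree_eq_one_of_irreducible K (minpoly.irreducible h5.isIntegral))
  exact ⟨c, hc⟩

/-- specializations over `K` are specializations over `cl K ∅` -/
theorem MWALK_spec_empty {ι : Type} {y y' : ι → L} (h : Spec K y y') :
    Spec (cl K (∅ : Set L)) y y' := by
  intro f hf
  have hs : Function.Surjective (algebraMap K (cl K (∅ : Set L))) := by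
    intro b
    obtain ⟨c, hc⟩ := MWALK_cl_empty b.2
    exact ⟨c, Subtype.ext hc⟩
  obtain ⟨g, rfl⟩ := map_surjective _ hs f
  rw [aeval_map_algebraMap] at hf ⊢
  exact h g hf

/-- a specialization over the closure of `x` gives a specialization of the pair -/
theorem MWALK_spec_pair {ι κ : Type} {x : ι → L} {y y' : κ → L} {s : Set L}
    (hx : ∀ i, x i ∈ cl K s) (h : Spec (cl K s) y y') :
    Spec K (Sum.elim x y) (Sum.elim x y') := by
  intro f hf
  set g : MvPolynomial κ (cl K s) := aeval (Sum.elim (fun i => C (⟨x i, hx i⟩ : cl K s)) X) f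
    with hg
  have key : ∀ z : κ → L, aeval z g = aeval (Sum.elim x z) f := by
    intro z
    have e : aeval z g = ((aeval z : MvPolynomial κ (cl K s) →ₐ[cl K s] L).restrictScalars K)
        g := rfl
    rw [e, hg, comp_aeval_apply]
    congr 2
    funext i
    cases i with
    | inl i =>
      show aeval z (C (⟨x i, hx i⟩ : cl K s)) = x i
      rw [aeval_C]
      rfl
    | inr j =>
      show aeval z (X j : MvPolynomial κ (cl K s)) = z j
      rw [aeval_X]
  have h1 := h g (by rw [key]; exact hf)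
  rw [key] at h1
  exact h1

/-- linear disjointness over `K`: independent pairs with conjugate components are conjugate -/
theorem MWALK_conj_indep (hLD : ST_LD.{u}) {Ω : Type u} [Field Ω] [Algebra K Ω] [IsAlgClosed Ω]
    {ι κ : Type} [Finite ι] [Finite κ] {x : ι → Ω} {y y' : κ → Ω} (h : Conj K y y')
    (hr : rk K (Set.range x ∪ Set.range y) = rk K (Set.range x) + rk K (Set.range y))
    (hr' : rk K (Set.range x ∪ Set.range y') = rk K (Set.range x) + rk K (Set.range y')) :
    Conj K (Sum.elim x y) (Sum.elim x y') := by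
  refine Conj.of_spec (MWALK_spec_pair (s := Set.range x) (fun i => mem_cl_of_mem ⟨i, rfl⟩) ?_)
    (MWALK_spec_pair (s := Set.range x) (fun i => mem_cl_of_mem ⟨i, rfl⟩) ?_)
  · refine hLD K Ω ∅ (Set.range x) Set.finite_empty (Set.finite_range x) (Set.empty_subset _) κ
      y y' ?_ (MWALK_spec_empty h.spec)
    rw [rk_empty, Set.empty_union, hr]
    omega
  · refine hLD K Ω ∅ (Set.range x) Set.finite_empty (Set.finite_range x) (Set.empty_subset _) κ
      y' y ?_ (MWALK_spec_empty h.symm.spec)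
    rw [rk_empty, Set.empty_union, hr']
    omega

variable {n m k : ℕ} (S : Sys K n m k)

/-- generic walks in big fields -/
theorem MWALK_gen (hSTEP : ST_STEP.{u}) {Ω : Type u} [Field Ω] [Algebra K Ω] [Big K Ω]
    {σ : Bool} {x : Fin n → Ω} {A : Set Ω} (hA : A.Finite) (hx : Vtx S.P σ x) : ∀ r : ℕ,
    ∃ v : ℕ → Fin n → Ω, IsWalk S.P σ r v ∧ v 0 = x ∧
      rk K (A ∪ pts v (Set.Iic r)) = rk K (A ∪ Set.range x) + r * k := by
  intro r
  induction r with
  | zero =>
    refine ⟨fun _ => x, isWalk_zero _ _, rfl, ?_⟩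
    rw [pts_Iic_zero]
    omega
  | succ r ih =>
    obtain ⟨v, h1, h2, h3⟩ := ih
    have hv : Vtx S.P (ty σ r) (v r) := h1.vtx' (by rw [h2]; exact hx) le_rfl
    obtain ⟨y, h4, h5⟩ := hSTEP K n m k S Ω (ty σ r) (v r) (A ∪ pts v (Set.Iic r))
      (hA.union (pts_Iic_finite v r)) hv
    have h6 : A ∪ pts v (Set.Iic r) ∪ Set.range (v r) = A ∪ pts v (Set.Iic r) := by
      refine Set.union_eq_self_of_subset_right ?_
      exact (range_subset_pts v (Set.mem_Iic.2 le_rfl)).trans Set.subset_union_right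
    rw [h6] at h5
    refine ⟨wsnoc r v y, h1.snoc h4, ?_, ?_⟩
    · rw [wsnoc_of_le _ _ (Nat.zero_le _), h2]
    · rw [pts_wsnoc, ← Set.union_assoc, h5, h3]
      ring

/-- the ends of a generic `r`-walk, `r ≤ m` -/
theorem MWALK_ends (hENDS : ST_ENDS.{u}) {σ : Bool} {r : ℕ} {v : ℕ → Fin n → L} (hr : r ≤ m)
    (h : IsWalk S.P σ r v) (hn : NB r v) :
    rk K (Set.range (v 0) ∪ Set.range (v r)) = rk K (pts v (Set.Iic r)) := by
  apply le_antisymm
  · refine rk_mono (pts_Iic_finite v r) (Set.union_subset ?_ ?_)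
    · exact range_subset_pts v (Set.mem_Iic.2 (Nat.zero_le _))
    · exact range_subset_pts v (Set.mem_Iic.2 le_rfl)
  · refine rk_le_of_subset_cl ((Set.finite_range _).union (Set.finite_range _)) ?_
    intro a ha
    obtain ⟨i, hi, c, rfl⟩ := mem_pts.1 ha
    exact hENDS K n m k S L σ r v hr h hn i hi c

end

/-- MWALK. -/
theorem st_MWALK (hBIG : ST_BIG.{u}) (hSTEP : ST_STEP.{u}) (hENDS : ST_ENDS.{u})
    (hGNB : ST_GNB.{u}) (hLD : ST_LD.{u}) (hCONJ : ST_CONJ.{u}) : ST_MWALK.{u} := by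
  intro K _ _ n m k S L _ _ _ σ x q hx hq hr
  obtain ⟨Ω, i1, i2, i3, i4, i5⟩ := hBIG K L
  have i6 : IsAlgClosed Ω := i5.alg
  set j : L →ₐ[K] Ω := IsScalarTower.toAlgHom K L Ω with hj
  obtain ⟨v, h1, h2, h3⟩ := MWALK_gen S hSTEP (A := ∅) Set.finite_empty (hx.map j) m
  rw [Set.empty_union, Set.empty_union, S.rk_vtx (hx.map j)] at h3
  have h4 : NB m v := hGNB K n m k S Ω σ m v h1 (by rw [h3])
  have h5 := MWALK_ends S hENDS le_rfl h1 h4
  rw [h3] at h5
  have h6 : Vtx S.P (ty σ m) (v m) := h1.vtx' (by rw [h2]; exact hx.map j) le_rfl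
  have h7 : rk K (Set.range (v m)) = m * k := S.rk_vtx h6
  have h8 : rk K (Set.range (v 0)) = m * k := by rw [h2]; exact S.rk_vtx (hx.map j)
  have h9 : Conj K (v m) (fun c => j (q c)) := h6.conj (hq.map j)
  have h10 : rk K (Set.range (v 0) ∪ Set.range (fun c => j (q c))) = 2 * (m * k) := by
    rw [h2, ← image_range j x, ← image_range j q, ← Set.image_union,
      rk_image_of_injective j, hr]
  have h11 : Conj K (Sum.elim (v 0) (v m)) (Sum.elim (v 0) (fun c => j (q c))) := by
    refine MWALK_conj_indep hLD h9 ?_ ?_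
    · rw [h5, h7, h8]
    · rw [h10, h8, S.rk_vtx (hq.map j)]
      ring
  have h12 : Conj K (Sum.elim (v 0) (v m)) (Sum.elim x q) := by
    refine h11.trans ?_
    rw [h2]
    exact (conj_elim_map j x q).symm
  obtain ⟨θ, hθ⟩ := hCONJ K Ω L (Fin n ⊕ Fin n) _ _ h12
  have hmem : ∀ i ≤ m, ∀ c, v i c ∈ cl K (Set.range (Sum.elim (v 0) (v m))) := by
    intro i hi c
    rw [range_sum_elim]
    exact hENDS K n m k S Ω σ m v le_rfl h1 h4 i hi c
  classical
  set w : ℕ → Fin n → L := fun i c =>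
    if h : v i c ∈ cl K (Set.range (Sum.elim (v 0) (v m))) then θ ⟨v i c, h⟩ else 0 with hw
  have hwv : ∀ i ≤ m, ∀ (c : Fin n) (b : cl K (Set.range (Sum.elim (v 0) (v m)))),
      (b : Ω) = v i c → θ b = w i c := by
    intro i hi c b hb
    have hm := hmem i hi c
    show θ b = if h : v i c ∈ cl K (Set.range (Sum.elim (v 0) (v m))) then θ ⟨v i c, h⟩ else 0
    rw [dif_pos hm]
    congr 1
    exact Subtype.ext hb
  refine ⟨w, ?_, ?_, ?_, ?_⟩
  · intro i hi
    exact (edge_map_cl θ (hmem i hi.le) (hmem (i + 1) hi) (hwv i hi.le) (hwv (i + 1) hi)).1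
      (h1 i hi)
  · intro i hi he
    apply h4 i hi
    funext c
    have e1 := hwv i (by omega) c ⟨v i c, hmem i (by omega) c⟩ rfl
    have e2 := hwv (i + 2) hi c ⟨v (i + 2) c, hmem (i + 2) hi c⟩ rfl
    rw [he, ← e2] at e1
    exact congrArg Subtype.val (θ.injective e1)
  · funext c
    rw [← hwv 0 (Nat.zero_le _) c ⟨v 0 c, hmem 0 (Nat.zero_le _) c⟩ rfl]
    exact hθ (Sum.inl c) _ rfl
  · funext c
    rw [← hwv m le_rfl c ⟨v m c, hmem m le_rfl c⟩ rfl]
    exact hθ (Sum.inr c) _ rfl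

end Pool.Agent.Helper92.GG
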