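import Pool.Agent.Helper92.GG.Stmts
import Pool.Agent.Helper92.GG.Walk

/-! # SEP: separating coordinates -/

set_option autoImplicit false
set_option linter.unusedSectionVars false

namespace Pool.Agent.Helper92.GG

open MvPolynomial
open Pool.Agent.Helper49.Girth (cl ty mem_cl mem_cl' coe_cl subset_cl mem_cl_of_mem cl_le_cl
  cl_mono root_mem_cl aeval_mem cl_eq_top_iff)

universe u

section sepgen

open IntermediateField

variable {k F : Type u} [Field k] [Field F] [Algebra k F] [PerfectField k]

/-- a separating coordinate for fields of transcendence degree one -/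
theorem SEP_sepgen {ι : Type} [Finite ι] (a : ι → F) (c₀ : ι)
    (h₀ : IsTranscendenceBasis k fun i : ({c₀} : Set ι) => a i) :
    ∃ c : ι, IsTranscendenceBasis k (fun i : ({c} : Set ι) => a i) ∧
      ∀ d, IsSeparable (IntermediateField.adjoin k {a c}) (a d) := by
  classical
  have halg : ∀ s : Set ι, IsTranscendenceBasis k (fun i : s => a i) →
      Algebra.IsAlgebraic (IntermediateField.adjoin k (a '' s)) F := by
    intro s hs
    have h1 := hs.isAlgebraic_field
    have h2 : Set.range (fun i : s => a i) = a '' s := by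
      ext z
      simp
    rw [h2] at h1
    exact h1
  obtain hc | ⟨p, hp, hpk⟩ := CharP.exists' k
  · refine ⟨c₀, h₀, fun d => ?_⟩
    have h1 := halg _ h₀
    rw [Set.image_singleton] at h1
    have h2 : CharZero (IntermediateField.adjoin k {a c₀}) :=
      charZero_of_injective_algebraMap (algebraMap k _).injective
    have h3 : Algebra.IsSeparable (IntermediateField.adjoin k {a c₀}) F := inferInstance
    exact h3.isSeparable' (a d)
  · have : ExpChar k p := .prime hp.out
    have : CharP F p := .of_ringHom_of_ne_zero (algebraMap k F) p hp.out.ne_zero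
    have H : ∀ s : Finset F, LinearIndepOn k _root_.id (s : Set F) →
        LinearIndepOn k (· ^ p) (s : Set F) := by
      intro s hs
      refine hs.map_of_injective_injective (frobeniusEquiv k p).symm
        (frobenius F p).toAddMonoidHom ?_ ?_ ?_
      · intro x hx
        simpa using hx
      · intro x hx
        have h1 : x ^ p = 0 := hx
        exact pow_eq_zero_iff hp.out.ne_zero |>.1 h1
      · intro r m
        show ((frobeniusEquiv k p).symm r • m) ^ p = r • m ^ p
        rw [Algebra.smul_def, mul_pow, ← map_pow, frobeniusEquiv_symm_pow_p, Algebra.smul_def]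
    -- a maximal choice
    obtain ⟨s, hs⟩ := Set.Finite.exists_maximalFor
      (fun s : Set ι => (separableClosure (IntermediateField.adjoin k (a '' s)) F).restrictScalars k)
      {s : Set ι | IsTranscendenceBasis k (fun i : s => a i)} (Set.toFinite _) ⟨_, h₀⟩
    have hs1 : IsTranscendenceBasis k (fun i : s => a i) := hs.1
    have hs2 := hs.2
    have hcard : Cardinal.mk s = 1 := by
      rw [hs1.cardinalMk_eq h₀]
      simp
    obtain ⟨hsub, ⟨⟨c, hc⟩⟩⟩ := Cardinal.eq_one_iff_unique.1 hcard
    have hu : ∀ x : s, x = ⟨c, hc⟩ := fun x => hsub.elim x _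
    have hsc : s = {c} := by
      ext x
      constructor
      · intro hx
        exact congrArg Subtype.val (hu ⟨x, hx⟩)
      · rintro rfl
        exact hc
    rw [hsc] at hs1 hs2
    refine ⟨c, hs1, fun d => ?_⟩
    by_contra hn
    have hd : d ∉ ({c} : Set ι) := by
      intro h
      have h' : d = c := h
      rw [h'] at hn
      refine hn ?_
      exact isSeparable_algebraMap
        (F := IntermediateField.adjoin k {a c})
        (⟨a c, subset_adjoin _ _ rfl⟩ : IntermediateField.adjoin k {a c})
    obtain ⟨i, hi₁, hi₂⟩ := exists_isTranscendenceBasis_and_isSeparable_of_linearIndepOn_pow'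
      p hp.out (a := a) H {c} d hs1 hd
    have key : ∀ x ∈ insert d ({c} : Set ι),
        a x ∈ separableClosure (IntermediateField.adjoin k (a '' (insert d {c} \ {i}))) F := by
      intro x hx
      rcases eq_or_ne x i with h | h
      · rw [h]
        exact hi₂
      · exact le_restrictScalars_separableClosure _ (subset_adjoin _ _ ⟨x, ⟨hx, h⟩, rfl⟩)
    have hle : (separableClosure (IntermediateField.adjoin k (a '' ({c} : Set ι))) F).restrictScalars k ≤
        (separableClosure (IntermediateField.adjoin k (a '' (insert d {c} \ {i}))) F).restrictScalars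
          k := by
      rw [separableClosure_le_separableClosure_iff, adjoin_le_iff]
      rintro _ ⟨x, hx, rfl⟩
      exact key x (Or.inr hx)
    have hge := hs2 hi₁ hle
    have h3 : a d ∈ separableClosure (IntermediateField.adjoin k (a '' ({c} : Set ι))) F :=
      hge (key d (Or.inl rfl))
    rw [Set.image_singleton] at h3
    exact hn h3

end sepgen

section poly

variable {k F : Type u} [Field k] [Field F] [Algebra k F]

/-- polynomials over `k[a]` as polynomials in two variables over `k` -/
theorem SEP_lift (a : F) (q : Polynomial (Algebra.adjoin k {a})) :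
    ∃ f : MvPolynomial (Fin 2) k, ∀ b : F, aeval ![a, b] f = Polynomial.aeval b q ∧
      aeval ![a, b] (pderiv 1 f) = Polynomial.aeval b (Polynomial.derivative q) := by
  induction q using Polynomial.induction_on' with
  | add q₁ q₂ h₁ h₂ =>
    obtain ⟨f₁, h₁⟩ := h₁
    obtain ⟨f₂, h₂⟩ := h₂
    refine ⟨f₁ + f₂, fun b => ⟨?_, ?_⟩⟩
    · rw [map_add, map_add, (h₁ b).1, (h₂ b).1]
    · rw [map_add, map_add, map_add, map_add, (h₁ b).2, (h₂ b).2]
  | monomial n c =>
    have hc : (c : F) ∈ (Polynomial.aeval (R := k) a).range := by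
      rw [← Algebra.adjoin_singleton_eq_range_aeval]
      exact c.2
    obtain ⟨g, hg⟩ := hc
    have hg' : Polynomial.aeval a g = (c : F) := hg
    refine ⟨Polynomial.aeval (X 0 : MvPolynomial (Fin 2) k) g * X 1 ^ n, fun b => ?_⟩
    have e1 : aeval ![a, b] (Polynomial.aeval (X 0 : MvPolynomial (Fin 2) k) g) = (c : F) := by
      rw [← Polynomial.aeval_algHom_apply, aeval_X]
      exact hg'
    have e2 : pderiv 1 (Polynomial.aeval (X 0 : MvPolynomial (Fin 2) k) g) = 0 := by
      rw [Derivation.map_aeval, pderiv_X_of_ne (by decide), smul_zero]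
    have e3 : aeval ![a, b] (X 1 : MvPolynomial (Fin 2) k) = b := by
      rw [aeval_X]
      rfl
    constructor
    · rw [map_mul, map_pow, e1, e3, Polynomial.aeval_monomial]
      rfl
    · rw [Derivation.leibniz, e2, smul_zero, add_zero, Derivation.leibniz_pow, pderiv_X_self,
        Polynomial.derivative_monomial, Polynomial.aeval_monomial, smul_eq_mul, smul_eq_mul,
        mul_one, map_mul, e1, nsmul_eq_mul, map_mul, map_natCast, map_pow, e3, map_mul,
        map_natCast]
      show (c : F) * _ = (c : F) * _ * _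
      ring

open scoped IntermediateField.algebraAdjoinAdjoin in
/-- separable elements are simple roots of polynomials -/
theorem SEP_poly {a b : F} (h : IsSeparable (IntermediateField.adjoin k {a}) b) :
    ∃ f : MvPolynomial (Fin 2) k, aeval ![a, b] f = 0 ∧ aeval ![a, b] (pderiv 1 f) ≠ 0 := by
  set μ := minpoly (IntermediateField.adjoin k {a}) b with hμ
  have h1 : Polynomial.aeval b μ = 0 := minpoly.aeval _ _
  have h2 : Polynomial.aeval b (Polynomial.derivative μ) ≠ 0 :=
    Polynomial.Separable.aeval_derivative_ne_zero h h1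
  obtain ⟨c, hc, he⟩ := IsLocalization.integerNormalization_spec
    (nonZeroDivisors (Algebra.adjoin k {a})) μ
  set q := IsLocalization.integerNormalization (nonZeroDivisors (Algebra.adjoin k {a})) μ with hq
  rw [← IsScalarTower.algebraMap_smul (IntermediateField.adjoin k {a}) c μ] at he
  obtain ⟨f, hf⟩ := SEP_lift a q
  have hc0 : (c : F) ≠ 0 := by
    intro h0
    exact nonZeroDivisors.ne_zero hc (Subtype.ext h0)
  have key : ∀ r : Polynomial (Algebra.adjoin k {a}),
      Polynomial.aeval b r = Polynomial.aeval b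
        (r.map (algebraMap (Algebra.adjoin k {a}) (IntermediateField.adjoin k {a}))) := by
    intro r
    rw [Polynomial.aeval_map_algebraMap]
  refine ⟨f, ?_, ?_⟩
  · rw [(hf b).1, key, he, map_smul, h1, smul_zero]
  · rw [(hf b).2, key, ← Polynomial.derivative_map, he, Polynomial.derivative_smul, map_smul]
    rw [Algebra.smul_def]
    exact mul_ne_zero hc0 h2

end poly

section closed

variable {K : Type u} [Field K] {L : Type u} [Field L] [Algebra K L]

theorem SEP_isAlgClosed_cl [IsAlgClosed L] (s : Set L) : IsAlgClosed (cl K s) :=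
  (algebraicClosure.isAlgClosure (IntermediateField.adjoin K s) L).isAlgClosed

end closed

section main

variable {K : Type u} [Field K] [IsAlgClosed K] {n m : ℕ} (S : Sys K n m 1)

/-- separating coordinates exist for one edge of each type -/
theorem SEP_exists (σ : Bool) : ∃ (c : Fin n) (F : Type u) (_ : Field F) (_ : Algebra K F)
    (x y : Fin n → F), Edge S.P σ x y ∧ y c ∉ cl K (Set.range x) ∧
      ∀ d, ∃ f : MvPolynomial (Fin 2) (cl K (Set.range x)), aeval ![y c, y d] f = 0 ∧
        aeval ![y c, y d] (pderiv 1 f) ≠ 0 := by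
  obtain ⟨L, i1, i2, x₁, y₁, h₁⟩ := S.exists_edge σ
  let L' := AlgebraicClosure L
  let j : L →ₐ[K] L' := IsScalarTower.toAlgHom K L L'
  set x₂ : Fin n → L' := fun c => j (x₁ c) with hx₂
  set y₂ : Fin n → L' := fun c => j (y₁ c) with hy₂
  have h₂ : Edge S.P σ x₂ y₂ := h₁.map j
  set M : IntermediateField K L' := cl K (Set.range x₂ ∪ Set.range y₂) with hM
  have hMc : IsAlgClosed M := SEP_isAlgClosed_cl _
  let x : Fin n → M := fun c => ⟨x₂ c, mem_cl_of_mem (Or.inl ⟨c, rfl⟩)⟩
  let y : Fin n → M := fun c => ⟨y₂ c, mem_cl_of_mem (Or.inr ⟨c, rfl⟩)⟩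
  have h : Edge S.P σ x y := (edge_map_iff (P := S.P) M.val).1 h₂
  have hfin : (Set.range x ∪ Set.range y).Finite := (Set.finite_range x).union (Set.finite_range y)
  have htop : cl K (Set.range x ∪ Set.range y) = ⊤ := by
    rw [eq_top_iff]
    intro a _
    refine (map_mem_cl_iff M.val hfin).1 ?_
    have e : M.val '' (Set.range x ∪ Set.range y) = Set.range x₂ ∪ Set.range y₂ := by
      rw [Set.image_union, ← Set.range_comp, ← Set.range_comp]
      rfl
    rw [e]
    exact a.2
  have hk : IsAlgClosed (cl K (Set.range x)) := SEP_isAlgClosed_cl _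
  have hrx : rk K (Set.range x) = m * 1 := S.rk_vtx h.vtx
  have hrxy : rk K (Set.range x ∪ Set.range y) = (m + 1) * 1 := S.rk_edge h
  -- bases
  have hbasis : ∀ c, y c ∉ cl K (Set.range x) →
      IsTranscendenceBasis (cl K (Set.range x)) fun i : ({c} : Set (Fin n)) => y i := by
    intro c hc
    have hr : Set.range (fun i : ({c} : Set (Fin n)) => y i) = {y c} := by
      ext z
      simp [eq_comm]
    rw [isTranscendenceBasis_iff_algebraicIndependent_isAlgebraic, hr, ← cl_eq_top_iff]
    constructor
    · rw [algebraicIndependent_unique_type_iff]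
      intro ha
      refine hc ?_
      obtain ⟨z, hz⟩ := minpoly.mem_range_of_degree_eq_one (cl K (Set.range x)) _
        (IsAlgClosed.degree_eq_one_of_irreducible (cl K (Set.range x))
          (minpoly.irreducible ha.isIntegral))
      have hz' : (z : M) = y c := hz
      rw [← hz']
      exact z.2
    · rw [eq_top_iff]
      intro a _
      rw [cl_cl_mem]
      have h1 : Set.range x ∪ Set.range y ⊆ cl K (Set.range x ∪ {y c}) := by
        have hsub : Set.range x ∪ {y c} ⊆ Set.range x ∪ Set.range y := by
          refine Set.union_subset_union_right _ ?_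
          rintro _ rfl
          exact ⟨c, rfl⟩
        refine subset_cl_of_rk_le hfin hsub ?_
        rw [hrxy, Set.union_singleton, rk_insert_of_notMem (Set.finite_range x) hc, hrx]
        omega
      have h2 : (⊤ : IntermediateField K M) ≤ cl K (Set.range x ∪ {y c}) := by
        rw [← htop]
        exact cl_le_cl fun _ hb => h1 hb
      exact h2 trivial
  have hex : ∃ c₀, y c₀ ∉ cl K (Set.range x) := by
    by_contra hc
    push Not at hc
    have h1 : rk K (Set.range x ∪ Set.range y) = rk K (Set.range x) := by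
      refine rk_union_of_subset_cl ?_
      rintro _ ⟨c, rfl⟩
      exact hc c
    omega
  obtain ⟨c₀, hc₀⟩ := hex
  obtain ⟨c, hc, hsep⟩ := SEP_sepgen y c₀ (hbasis c₀ hc₀)
  refine ⟨c, M, inferInstance, inferInstance, x, y, h, ?_, fun d => SEP_poly (hsep d)⟩
  intro hmem
  have h1 : Transcendental (cl K (Set.range x)) (y c) := by
    have := hc.1
    rwa [algebraicIndependent_unique_type_iff] at this
  exact h1 (isAlgebraic_algebraMap (⟨y c, hmem⟩ : cl K (Set.range x)))

end main

/-- SEP. -/
theorem st_SEP (hCONJ : ST_CONJ.{u}) : ST_SEP.{u} := by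
  intro K _ _ n m S
  choose t F i1 i2 x₀ y₀ hE ht hs using fun σ => SEP_exists S σ
  refine ⟨{ toSys := S, t := fun ρ => t (!ρ), trans := ?_, sep := ?_ }, rfl⟩
  · intro L _ _ σ x y h
    have e : t (!(!σ)) = t σ := by rw [Bool.not_not]
    rw [e]
    have hc := (hE σ).conj h
    have h1 : Conj K (Sum.elim (x₀ σ) (fun _ : Unit => y₀ σ (t σ)))
        (Sum.elim x (fun _ : Unit => y (t σ))) := by
      have := hc.comp (Sum.map id (fun _ : Unit => t σ))
      have e1 : ∀ (L' : Type u) (a b : Fin n → L'), Sum.elim a b ∘ Sum.map id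
          (fun _ : Unit => t σ) = Sum.elim a (fun _ : Unit => b (t σ)) := by
        intro L' a b
        funext i
        cases i <;> rfl
      rw [e1, e1] at this
      exact this
    have h2 := h1.rk_eq
    have e2 : ∀ (L' : Type u) (a : Fin n → L') (b : L'), Set.range (Sum.elim a
        (fun _ : Unit => b)) = insert b (Set.range a) := by
      intro L' a b
      rw [Set.Sum.elim_range, Set.range_const, Set.union_singleton]
    rw [e2, e2] at h2
    intro hmem
    have h3 := rk_insert_of_notMem (Set.finite_range (x₀ σ)) (ht σ)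
    have h4 : rk K (insert (y (t σ)) (Set.range x)) = rk K (Set.range x) := by
      rw [← Set.union_singleton]
      refine rk_union_of_subset_cl ?_
      rintro _ rfl
      exact hmem
    have h5 : rk K (Set.range (x₀ σ)) = m * 1 := S.rk_vtx (hE σ).vtx
    have h6 : rk K (Set.range x) = m * 1 := S.rk_vtx h.vtx
    omega
  · intro L _ _ _ σ x y h c
    have e : t (!(!σ)) = t σ := by rw [Bool.not_not]
    rw [e]
    obtain ⟨s, hsdef⟩ : ∃ s, s = Set.range (Sum.elim (x₀ σ) (y₀ σ)) := ⟨_, rfl⟩
    obtain ⟨θ, hθ⟩ : ∃ θ : cl K s →ₐ[K] L, ∀ (i : Fin n ⊕ Fin n) (b : cl K s),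
        (b : F σ) = Sum.elim (x₀ σ) (y₀ σ) i → θ b = Sum.elim x y i := by
      rw [hsdef]
      exact hCONJ K (F σ) L (Fin n ⊕ Fin n) _ _ ((hE σ).conj h)
    have hx : ∀ c, x₀ σ c ∈ cl K s := fun c => by
      rw [hsdef]
      exact mem_cl_of_mem ⟨Sum.inl c, rfl⟩
    have hy : ∀ c, y₀ σ c ∈ cl K s := fun c => by
      rw [hsdef]
      exact mem_cl_of_mem ⟨Sum.inr c, rfl⟩
    have hθx : ∀ c, θ ⟨x₀ σ c, hx c⟩ = x c := fun c => hθ (Sum.inl c) _ rfl
    have hθy : ∀ c, θ ⟨y₀ σ c, hy c⟩ = y c := fun c => hθ (Sum.inr c) _ rfl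
    have hle : cl K (Set.range (x₀ σ)) ≤ cl K s := by
      apply cl_mono
      rintro _ ⟨c, rfl⟩
      rw [hsdef]
      exact ⟨Sum.inl c, rfl⟩
    -- the restriction of `θ` to `cl x₀`
    have hmap : ∀ a : cl K (Set.range (x₀ σ)), θ ⟨a, hle a.2⟩ ∈ cl K (Set.range x) := by
      intro a
      have h1 : (Set.range fun c => (⟨x₀ σ c, hx c⟩ : cl K s)).Finite := Set.finite_range _
      have h2 := map_mem_cl_val (cl K s) θ h1 (a := ⟨a, hle a.2⟩) (by
        have : (Subtype.val '' Set.range fun c => (⟨x₀ σ c, hx c⟩ : cl K s)) =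
            Set.range (x₀ σ) := by
          rw [← Set.range_comp]
          rfl
        rw [this]
        exact a.2)
      have h3 : (θ '' Set.range fun c => (⟨x₀ σ c, hx c⟩ : cl K s)) = Set.range x := by
        rw [← Set.range_comp]
        congr 1
        funext c
        exact hθx c
      rw [h3] at h2
      exact h2
    let θ' : cl K (Set.range (x₀ σ)) →+* cl K (Set.range x) :=
      { toFun := fun a => ⟨θ ⟨a, hle a.2⟩, hmap a⟩
        map_one' := Subtype.ext (map_one θ)
        map_mul' := fun a b => Subtype.ext (map_mul θ ⟨a, hle a.2⟩ ⟨b, hle b.2⟩)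
        map_zero' := Subtype.ext (map_zero θ)
        map_add' := fun a b => Subtype.ext (map_add θ ⟨a, hle a.2⟩ ⟨b, hle b.2⟩) }
    obtain ⟨f, hf1, hf2⟩ := hs σ c
    have key : ∀ g : MvPolynomial (Fin 2) (cl K (Set.range (x₀ σ))),
        ∃ b : cl K s, (b : F σ) = aeval ![y₀ σ (t σ), y₀ σ c] g ∧
          θ b = aeval ![y (t σ), y c] (map θ' g) := by
      intro g
      induction g using MvPolynomial.induction_on with
      | C a =>
        refine ⟨⟨a, hle a.2⟩, ?_, ?_⟩
        · rw [aeval_C]
          rfl
        · rw [map_C, aeval_C]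
          rfl
      | add p q hp hq =>
        obtain ⟨b, hb1, hb2⟩ := hp
        obtain ⟨b', hb1', hb2'⟩ := hq
        refine ⟨b + b', ?_, ?_⟩
        · rw [map_add, ← hb1, ← hb1']
          rfl
        · rw [map_add, map_add, map_add, hb2, hb2']
      | mul_X p i hp =>
        obtain ⟨b, hb1, hb2⟩ := hp
        have hi : ∃ z : cl K s, (z : F σ) = ![y₀ σ (t σ), y₀ σ c] i ∧
            θ z = ![y (t σ), y c] i := by
          fin_cases i
          · exact ⟨⟨y₀ σ (t σ), hy _⟩, rfl, hθy _⟩
          · exact ⟨⟨y₀ σ c, hy _⟩, rfl, hθy _⟩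
        obtain ⟨z, hz1, hz2⟩ := hi
        refine ⟨b * z, ?_, ?_⟩
        · rw [map_mul, aeval_X, ← hb1, ← hz1]
          rfl
        · rw [map_mul, map_mul, map_mul, map_X, aeval_X, hb2, hz2]
    refine ⟨map θ' f, ?_, ?_⟩
    · obtain ⟨b, hb1, hb2⟩ := key f
      rw [hf1] at hb1
      have hb : b = 0 := Subtype.ext hb1
      rw [← hb2, hb, map_zero]
    · obtain ⟨b, hb1, hb2⟩ := key (pderiv 1 f)
      rw [pderiv_map, ← hb2]
      intro h0
      rw [map_eq_zero_iff θ θ.injective] at h0
      rw [h0] at hb1
      exact hf2 hb1.symm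

end Pool.Agent.Helper92.GG
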